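import Pool.Agent.Q283.SP.Stm
import Pool.Agent.Q38.LS.PLC
import Pool.Agent.Y682.Lcl

/-!
# Project SP (helper283), job PLC: the embedding belonging to a place, and local `p`-th powers
-/

set_option autoImplicit false

namespace Pool.Agent.Q124.SP

open NumberField IsDedekindDomain Filter Topology
open Pool.Agent.Q283.LS (Dec)
open Pool.Agent.Q7.LK (Lpw)
open Pool.Agent.TH841.NF (lf mem_lf)
open Pool.Agent.Q38.LS (exists_j exists_lift val_iff dense_lf)
open Pool.Agent.Y682 (vv vv_coe norm_le_iff)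

section fix

variable {Ω : Type} [Field Ω] [CharZero Ω] [IsAlgClosed Ω] [Algebra.IsAlgebraic ℚ Ω]
  {l : ℕ} [Fact l.Prime]

/-- elements fixed by the decomposition group lie in the local field -/
theorem mem_lf_of_fix (F : IntermediateField ℚ Ω) [NumberField F] (j : Ω →+* PadicAlgCl l) (w : Ω)
    (h : ∀ σ ∈ F.fixingSubgroup, Dec j σ → σ w = w) : j w ∈ lf (j.comp (algebraMap F Ω)) := by
  have hcl : IsAlgClosure ℚ Ω := ⟨inferInstance, inferInstance⟩
  have hgal : IsGalois ℚ Ω := IsAlgClosure.isGalois ℚ Ω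
  rw [← InfiniteGalois.fixedField_fixingSubgroup (lf (j.comp (algebraMap F Ω))),
    IntermediateField.mem_fixedField_iff]
  intro σ hσ
  rw [IntermediateField.mem_fixingSubgroup_iff] at hσ
  obtain ⟨σ', hσ'⟩ := exists_lift j σ
  have h1 : σ' ∈ F.fixingSubgroup := by
    rw [IntermediateField.mem_fixingSubgroup_iff]
    intro x hx
    apply j.injective
    rw [← hσ']
    exact hσ _ (mem_lf (j.comp (algebraMap F Ω)) ⟨x, hx⟩)
  rw [hσ', h σ' h1 ⟨σ, hσ'⟩]

end fix

section lim

variable {F : Type} [Field F] [NumberField F] {l : ℕ} [Fact l.Prime] (j : F →+* PadicAlgCl l)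
  (v : HeightOneSpectrum (𝓞 F))

theorem norm_lt_one_iff (x : F) : ‖algebraMap F (v.adicCompletion F) x‖ < 1 ↔
    v.valuation F x < 1 := by
  rw [← norm_one (α := v.adicCompletion F), ← not_le, norm_le_iff, not_le, vv_coe, map_one]

/-- sequences tending to zero -/
theorem tend0 (h : ∀ x : F, v.valuation F x < 1 ↔ ‖j x‖ < 1) {ι : Type} {L : Filter ι} {t : ι → F}
    (ht : Tendsto (fun i => ‖j (t i)‖) L (𝓝 0)) :
    Tendsto (fun i => ‖algebraMap F (v.adicCompletion F) (t i)‖) L (𝓝 0) := by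
  obtain ⟨π, hπ⟩ := v.valuation_exists_uniformizer F
  have hπ1 : v.valuation F π < 1 := by
    rw [hπ, ← WithZero.exp_zero, WithZero.exp_lt_exp]
    norm_num
  have hπ0 : π ≠ 0 := by
    rintro rfl
    rw [map_zero] at hπ
    exact WithZero.exp_ne_zero hπ.symm
  have hn1 : ‖algebraMap F (v.adicCompletion F) π‖ < 1 := (norm_lt_one_iff v π).2 hπ1
  have hn0 : 0 < ‖algebraMap F (v.adicCompletion F) π‖ :=
    norm_pos_iff.2 ((map_ne_zero _).2 hπ0)
  have hj0 : 0 < ‖j π‖ := norm_pos_iff.2 ((map_ne_zero j).2 hπ0)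
  rw [Metric.tendsto_nhds]
  intro ε hε
  obtain ⟨N, hN⟩ := exists_pow_lt_of_lt_one hε hn1
  have h1 := (Metric.tendsto_nhds.1 ht) (‖j π‖ ^ N) (by positivity)
  filter_upwards [h1] with i hi
  rw [Real.dist_eq, sub_zero, abs_of_nonneg (norm_nonneg _)] at hi ⊢
  have h2 : ‖j (t i / π ^ N)‖ < 1 := by
    rw [map_div₀, map_pow, norm_div, norm_pow, div_lt_one (by positivity)]
    exact hi
  have h3 : ‖algebraMap F (v.adicCompletion F) (t i / π ^ N)‖ < 1 :=
    (norm_lt_one_iff v _).2 ((h _).2 h2)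
  rw [map_div₀, map_pow, norm_div, norm_pow, div_lt_one (by positivity)] at h3
  exact h3.trans hN

/-- elements of the local field are limits of sequences, which converge in the completion -/
theorem exists_lim (h : ∀ x : F, v.valuation F x < 1 ↔ ‖j x‖ < 1) {w : PadicAlgCl l}
    (hw : w ∈ lf j) : ∃ (u : ℕ → F) (w' : v.adicCompletion F),
      Tendsto (fun n => j (u n)) atTop (𝓝 w) ∧
      Tendsto (fun n => algebraMap F (v.adicCompletion F) (u n)) atTop (𝓝 w') := by
  choose u hu using fun n : ℕ => dense_lf j hw (ε := 1 / ((n : ℝ) + 1)) (by positivity)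
  have h1 : Tendsto (fun n => j (u n)) atTop (𝓝 w) := by
    rw [tendsto_iff_norm_sub_tendsto_zero]
    refine squeeze_zero (fun n => norm_nonneg _) (fun n => ?_)
      tendsto_one_div_add_atTop_nhds_zero_nat
    rw [norm_sub_rev]
    exact (hu n).le
  have h2 : CauchySeq fun n => algebraMap F (v.adicCompletion F) (u n) := by
    rw [cauchySeq_iff_tendsto_dist_atTop_0]
    have h3 := cauchySeq_iff_tendsto_dist_atTop_0.1 h1.cauchySeq
    have h4 := tend0 j v h (L := atTop) (t := fun n : ℕ × ℕ => u n.1 - u n.2) (by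
      refine h3.congr fun n => ?_
      rw [dist_eq_norm, map_sub])
    refine h4.congr fun n => ?_
    rw [dist_eq_norm, map_sub]
  obtain ⟨w', hw'⟩ := cauchySeq_tendsto_of_complete h2
  exact ⟨u, w', h1, hw'⟩

/-- relations are preserved -/
theorem rel_zero (h : ∀ x : F, v.valuation F x < 1 ↔ ‖j x‖ < 1) {t : ℕ → F}
    (h1 : Tendsto (fun n => j (t n)) atTop (𝓝 0)) {c : v.adicCompletion F}
    (h2 : Tendsto (fun n => algebraMap F (v.adicCompletion F) (t n)) atTop (𝓝 c)) : c = 0 := by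
  have h3 := tend0 j v h (L := atTop) (t := t) (by simpa using h1.norm)
  have h4 : Tendsto (fun n => algebraMap F (v.adicCompletion F) (t n)) atTop (𝓝 0) :=
    tendsto_zero_iff_norm_tendsto_zero.2 h3
  exact tendsto_nhds_unique h2 h4

end lim

theorem coe_alg {F : Type} [Field F] [NumberField F] (v : HeightOneSpectrum (𝓞 F)) (a : F) :
    (a : v.adicCompletion F) = algebraMap F (v.adicCompletion F) a := by
  rw [HeightOneSpectrum.algebraMap_adicCompletion]
  rfl

theorem pow_sub_le {K : Type} [NormedField K] [IsUltrametricDist K] (y u : K) (h : ‖u‖ = ‖y‖)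
    (n : ℕ) : ‖y ^ (n + 1) - u ^ (n + 1)‖ ≤ ‖y - u‖ * ‖y‖ ^ n := by
  induction n with
  | zero => simp
  | succ n ih =>
    have e : y ^ (n + 1 + 1) - u ^ (n + 1 + 1) = y * (y ^ (n + 1) - u ^ (n + 1)) +
        (y - u) * u ^ (n + 1) := by ring
    rw [e]
    refine (IsUltrametricDist.norm_add_le_max _ _).trans (max_le ?_ ?_)
    · rw [norm_mul]
      calc ‖y‖ * ‖y ^ (n + 1) - u ^ (n + 1)‖ ≤ ‖y‖ * (‖y - u‖ * ‖y‖ ^ n) :=
            mul_le_mul_of_nonneg_left ih (norm_nonneg _)
        _ = ‖y - u‖ * ‖y‖ ^ (n + 1) := by ring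
    · rw [norm_mul, norm_pow, h]

theorem plc : Pool.Agent.Q283.SP.S_PLC := by
  intro p hp Ω _ _ _ _ F _ v l _ hl
  obtain ⟨j, hj⟩ := exists_j F v hl
  let jF : F →+* PadicAlgCl l := j.comp (algebraMap F Ω)
  have hval : ∀ x : F, v.valuation F x < 1 ↔ ‖jF x‖ < 1 := val_iff jF v hj
  refine ⟨j, hval, ?_, ?_⟩
  · intro a y ha hy hfix n
    obtain ⟨q, hq⟩ : ∃ q, p = q + 1 := ⟨p - 1, by have := hp.out.pos; omega⟩
    have hy0 : y ≠ 0 := by
      rintro rfl
      apply ha
      have h1 : (a : Ω) = 0 := by rw [← hy]; simp [hp.out.ne_zero]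
      exact_mod_cast h1
    have hmem : j y ∈ lf jF := mem_lf_of_fix F j y hfix
    obtain ⟨π, hπ⟩ := v.valuation_exists_uniformizer F
    have hπ0 : π ≠ 0 := by
      rintro rfl
      rw [map_zero] at hπ
      exact WithZero.exp_ne_zero hπ.symm
    have hnπ : 0 < ‖jF π‖ := norm_pos_iff.2 ((map_ne_zero jF).2 hπ0)
    have hnπ1 : ‖jF π‖ < 1 := by
      rw [← hval, hπ, ← WithZero.exp_zero, WithZero.exp_lt_exp]
      norm_num
    have hny : 0 < ‖j y‖ := norm_pos_iff.2 ((map_ne_zero j).2 hy0)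
    obtain ⟨u, hu⟩ := dense_lf jF hmem (ε := ‖jF π‖ ^ n * ‖j y‖) (by positivity)
    have hlt : ‖j y - jF u‖ < ‖j y‖ :=
      hu.trans_le (mul_le_of_le_one_left hny.le (pow_le_one₀ hnπ.le hnπ1.le))
    have hnu : ‖jF u‖ = ‖j y‖ := by
      have h1 := IsUltrametricDist.norm_eq_of_add_norm_lt_max (x := jF u) (y := -(j y)) (by
        rw [← sub_eq_add_neg, norm_sub_rev]
        refine hlt.trans_le ?_
        rw [norm_neg]
        exact le_max_right _ _)
      rw [norm_neg] at h1
      exact h1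
    have hu0 : u ≠ 0 := by
      rintro rfl
      rw [map_zero, norm_zero] at hnu
      linarith
    have hju0 : jF u ≠ 0 := (map_ne_zero jF).2 hu0
    refine ⟨u⁻¹, ?_⟩
    have hpn : v.valuation F (π ^ n) = WithZero.exp (-(n : ℤ)) := by
      rw [map_pow, hπ, ← WithZero.exp_nsmul]
      congr 1
      simp
    rw [← hpn]
    have hpn0 : π ^ n ≠ 0 := pow_ne_zero _ hπ0
    have hkey : v.valuation F ((a * u⁻¹ ^ p - 1) / π ^ n) < 1 := by
      rw [hval]
      have hja : jF a = j y ^ p := by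
        rw [← map_pow, hy]
        rfl
      have h1 : jF ((a * u⁻¹ ^ p - 1) / π ^ n) =
          (j y ^ p - jF u ^ p) / (jF u ^ p * jF π ^ n) := by
        rw [map_div₀, map_sub, map_mul, map_pow, map_pow, map_inv₀, map_one, hja, inv_pow,
          ← div_div]
        congr 1
        rw [sub_div, div_self (pow_ne_zero _ hju0)]
        rfl
      rw [h1, norm_div, norm_mul, norm_pow, norm_pow, hnu, hq]
      rw [div_lt_one (by positivity)]
      calc ‖j y ^ (q + 1) - jF u ^ (q + 1)‖ ≤ ‖j y - jF u‖ * ‖j y‖ ^ q := pow_sub_le _ _ hnu q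
        _ < (‖jF π‖ ^ n * ‖j y‖) * ‖j y‖ ^ q := mul_lt_mul_of_pos_right hu (by positivity)
        _ = ‖j y‖ ^ (q + 1) * ‖jF π‖ ^ n := by ring
    rw [map_div₀] at hkey
    have h3 : v.valuation F (π ^ n) ≠ 0 := (Valuation.ne_zero_iff _).2 hpn0
    rwa [div_lt_one₀ (zero_lt_iff.2 h3)] at hkey
  · intro a y z m hy hz hfix
    have hmy : j y ∈ lf jF := mem_lf_of_fix F j y fun σ h1 h2 => (hfix σ h1 h2).1
    have hmz : j z ∈ lf jF := mem_lf_of_fix F j z fun σ h1 h2 => (hfix σ h1 h2).2
    obtain ⟨u, s, hu, hs⟩ := exists_lim jF v hval hmy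
    obtain ⟨c, ξ, hc, hξ⟩ := exists_lim jF v hval hmz
    refine ⟨ξ, s, ?_, ?_⟩
    · rw [← sub_eq_zero]
      refine rel_zero jF v hval (t := fun n => c n ^ p ^ m - 1) ?_ ?_
      · have h1 : Tendsto (fun n => jF (c n) ^ p ^ m - 1) atTop (𝓝 (j z ^ p ^ m - 1)) :=
          (hc.pow _).sub_const _
        rw [← map_pow, hz, map_one, sub_self] at h1
        refine h1.congr fun n => ?_
        rw [map_sub, map_pow, map_one]
      · have h1 : Tendsto (fun n => algebraMap F (v.adicCompletion F) (c n) ^ p ^ m - 1) atTop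
            (𝓝 (ξ ^ p ^ m - 1)) := (hξ.pow _).sub_const _
        refine h1.congr fun n => ?_
        rw [map_sub, map_pow, map_one]
    · rw [coe_alg, ← sub_eq_zero]
      refine rel_zero jF v hval (t := fun n => a * c n - u n ^ p) ?_ ?_
      · have h1 : Tendsto (fun n => jF a * jF (c n) - jF (u n) ^ p) atTop
            (𝓝 (jF a * j z - j y ^ p)) := (hc.const_mul _).sub (hu.pow _)
        have h2 : jF a * j z - j y ^ p = 0 := by
          rw [← map_pow, hy, map_mul]
          exact sub_self _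
        rw [h2] at h1
        refine h1.congr fun n => ?_
        rw [map_sub, map_mul, map_pow]
      · have h1 : Tendsto (fun n => algebraMap F (v.adicCompletion F) a *
            algebraMap F (v.adicCompletion F) (c n) - algebraMap F (v.adicCompletion F) (u n) ^ p)
            atTop (𝓝 (algebraMap F (v.adicCompletion F) a * ξ - s ^ p)) :=
          (hξ.const_mul _).sub (hs.pow _)
        refine h1.congr fun n => ?_
        rw [map_sub, map_mul, map_pow]

end Pool.Agent.Q124.SP
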