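import Pool.Agent.Q283.SP.Stm
import Pool.Agent.Q150.LQ.BAS1

/-!
# Project SP (helper283), job REGC: numbers which are local `p`-th powers, class number prime to `p`
-/

set_option autoImplicit false

namespace Pool.Agent.Q124.SP

open NumberField IsDedekindDomain Filter Topology
open Pool.Agent.Q7.LK (Dp vl Lpw IsPow mon sy S_BAS S_HS2 S_CHEB)
open Pool.Agent.Q150.LQ.B1 (norm_tendsto fin_norm)

section

variable {F : Type} [Field F] [NumberField F]

theorem fin_dp {p : ℕ} (hp : p ≠ 0) : {v : HeightOneSpectrum (𝓞 F) | Dp p v}.Finite := by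
  have h1 : Ideal.span {(p : 𝓞 F)} ≠ 0 := by
    rw [Ne, Ideal.zero_eq_bot, Ideal.span_singleton_eq_bot]
    exact_mod_cast hp
  refine (Ideal.finite_factors h1).subset ?_
  intro v hv
  change v.asIdeal ∣ Ideal.span {(p : 𝓞 F)}
  rw [Ideal.dvd_span_singleton]
  exact hv

/-- a generator of a power of a prime ideal -/
theorem exists_gen (v : HeightOneSpectrum (𝓞 F)) : ∃ x : 𝓞 F,
    v.asIdeal ^ NumberField.classNumber F = Ideal.span {x} ∧ x ≠ 0 := by
  have hv0 : v.asIdeal ∈ nonZeroDivisors (Ideal (𝓞 F)) :=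
    mem_nonZeroDivisors_of_ne_zero (by rw [Ideal.zero_eq_bot]; exact v.ne_bot)
  have h1 : ClassGroup.mk0 ((⟨v.asIdeal, hv0⟩ : nonZeroDivisors (Ideal (𝓞 F))) ^
      NumberField.classNumber F) = 1 := by
    rw [map_pow]
    exact pow_card_eq_one
  rw [ClassGroup.mk0_eq_one_iff] at h1
  obtain ⟨x, hx⟩ := h1.principal
  have hx' : v.asIdeal ^ NumberField.classNumber F = Ideal.span {x} := by
    have : (((⟨v.asIdeal, hv0⟩ : nonZeroDivisors (Ideal (𝓞 F))) ^
      NumberField.classNumber F : nonZeroDivisors (Ideal (𝓞 F))) : Ideal (𝓞 F)) =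
        v.asIdeal ^ NumberField.classNumber F := rfl
    rw [← this, hx]
  refine ⟨x, hx', ?_⟩
  rintro rfl
  have h2 : v.asIdeal ^ NumberField.classNumber F ≠ 0 :=
    pow_ne_zero _ (by rw [Ideal.zero_eq_bot]; exact v.ne_bot)
  apply h2
  rw [hx', Ideal.zero_eq_bot]
  simp

theorem val_gen (v : HeightOneSpectrum (𝓞 F)) {h : ℕ} {x : 𝓞 F}
    (hx : v.asIdeal ^ h = Ideal.span {x}) :
    v.valuation F (algebraMap (𝓞 F) F x) = WithZero.exp (-(h : ℤ)) := by
  rw [HeightOneSpectrum.valuation_of_algebraMap]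
  have h1 : x ∈ v.asIdeal ^ h := by
    rw [hx]
    exact Ideal.mem_span_singleton_self x
  have h2 : x ∉ v.asIdeal ^ (h + 1) := by
    intro hc
    have h3 : v.asIdeal ^ h ≤ v.asIdeal ^ (h + 1) := by
      rw [hx, Ideal.span_singleton_le_iff_mem]
      exact hc
    have h4 : v.asIdeal ^ (h + 1) < v.asIdeal ^ h :=
      Ideal.pow_succ_lt_pow v.ne_bot h
    exact absurd h3 (not_le_of_gt h4)
  rw [← HeightOneSpectrum.intValuation_le_pow_iff_mem] at h1 h2
  refine le_antisymm h1 ?_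
  rw [not_le] at h2
  have hx0 : x ≠ 0 := by
    rintro rfl
    rw [map_zero] at h2
    exact absurd h2 (by simp)
  have h3 : v.intValuation x ≠ 0 := v.intValuation_ne_zero x hx0
  obtain ⟨k, hk⟩ : ∃ k : ℤ, v.intValuation x = WithZero.exp k :=
    ⟨WithZero.log (v.intValuation x), (WithZero.exp_log h3).symm⟩
  rw [hk] at h2 ⊢
  rw [WithZero.exp_lt_exp] at h2
  rw [WithZero.exp_le_exp]
  push_cast at h2
  omega

theorem val_other {v w : HeightOneSpectrum (𝓞 F)} (hvw : w ≠ v) {h : ℕ} {x : 𝓞 F}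
    (hx : v.asIdeal ^ h = Ideal.span {x}) :
    w.valuation F (algebraMap (𝓞 F) F x) = 1 := by
  refine le_antisymm (w.valuation_le_one x) (not_lt.1 fun hc => ?_)
  rw [w.valuation_lt_one_iff_mem] at hc
  have h1 : v.asIdeal ^ h ≤ w.asIdeal := by
    rw [hx, Ideal.span_singleton_le_iff_mem]
    exact hc
  have h2 : v.asIdeal ≤ w.asIdeal := w.isPrime.le_of_pow_le h1
  have h3 : v.asIdeal = w.asIdeal := (v.isMaximal.eq_of_le w.isPrime.ne_top h2)
  exact hvw (HeightOneSpectrum.ext h3.symm)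

omit [NumberField F] in
theorem isPow_of_coprime {p k : ℕ} (hk : Nat.Coprime k p) {a : F} (ha : a ≠ 0)
    (h : IsPow p (a ^ k)) : IsPow p a := by
  obtain ⟨x, hx⟩ := h
  have h1 := Nat.gcd_eq_gcd_ab k p
  rw [hk] at h1
  refine ⟨x ^ (Nat.gcdA k p) * a ^ (Nat.gcdB k p), ?_⟩
  have h2 : a = a ^ ((k : ℤ) * Nat.gcdA k p + (p : ℤ) * Nat.gcdB k p) := by
    rw [← h1]
    simp
  conv_lhs => rw [h2]
  rw [zpow_add₀ ha, zpow_mul, zpow_mul, zpow_natCast, hx, mul_pow]
  congr 1
  · rw [← zpow_natCast, ← zpow_natCast, ← zpow_mul, ← zpow_mul, mul_comm]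
  · rw [← zpow_natCast, ← zpow_mul, mul_comm, zpow_mul, zpow_natCast]

end

theorem regc (_hBAS : S_BAS) (hHS2 : S_HS2) (hCHEB : S_CHEB) : Pool.Agent.Q283.SP.S_REGC := by
  intro p hp hp2 F _ _ ζ hζ hcl a ha hvl hLp
  have hp0 : p ≠ 0 := hp.out.ne_zero
  obtain ⟨t, hanti, -, hsum, hLpw, htame, -⟩ := hHS2 p hp2 F ζ hζ
  have hsy : ∀ v : HeightOneSpectrum (𝓞 F), ¬ Dp p v → sy p ζ v a = 0 := by
    intro v hv
    obtain ⟨x, hx, hx0⟩ := exists_gen v
    set X : F := algebraMap (𝓞 F) F x with hX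
    have hX0 : X ≠ 0 := by
      rw [hX]
      exact (map_ne_zero_iff _ (FaithfulSMul.algebraMap_injective (𝓞 F) F)).2 hx0
    have h1 := (hsum X a hX0 ha).2
    rw [finsum_eq_single _ v] at h1
    · rw [htame v hv a ha (hvl v hv) X hX0] at h1
      have h2 : vl p v X ≠ 0 := by
        unfold vl
        rw [hX, val_gen v hx, WithZero.log_exp]
        push_cast
        rw [neg_neg, Ne, ZMod.natCast_eq_zero_iff]
        exact hcl
      exact (mul_eq_zero.1 h1).resolve_left h2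
    · intro w hw
      by_cases hwp : Dp p w
      · rw [hanti w X a hX0 ha, hLpw w a X (hLp w hwp) hX0, neg_zero]
      · rw [htame w hwp a ha (hvl w hwp) X hX0]
        have h2 : vl p w X = 0 := by
          unfold vl
          rw [hX, val_other hw hx]
          simp
        rw [h2, zero_mul]
  by_contra hcon
  have hC := hCHEB p F ζ hζ 1 (fun _ => a) (fun _ => ha) (fun c hc => by
    have h1 : mon (fun _ : Fin 1 => a) c = a ^ (c 0).val := by
      simp [mon]
    rw [h1] at hc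
    funext i
    rw [Subsingleton.elim i 0]
    by_contra hne
    apply hcon
    refine isPow_of_coprime ?_ ha hc
    have h2 : (c 0).val ≠ 0 := by
      intro h
      apply hne
      rw [Pi.zero_apply]
      exact (ZMod.val_eq_zero _).1 h
    exact (Nat.coprime_of_lt_prime h2 (ZMod.val_lt _) hp.out).symm) (fun _ => 1)
  have hfin := fin_dp (F := F) hp0
  have hsq : Tendsto (fun X : ℕ =>
      (({v : HeightOneSpectrum (𝓞 F) | Dp p v}.ncard : ℝ)) /
      ({v : HeightOneSpectrum (𝓞 F) | Ideal.absNorm v.asIdeal ≤ X}.ncard : ℝ)) atTop (𝓝 0) :=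
    tendsto_const_nhds.div_atTop norm_tendsto
  have hle : ∀ X : ℕ, ({v : HeightOneSpectrum (𝓞 F) | Ideal.absNorm v.asIdeal ≤ X ∧
      ∀ i : Fin 1, sy p ζ v ((fun _ => a) i) = (fun _ => 1) i}.ncard : ℝ) /
      ({v : HeightOneSpectrum (𝓞 F) | Ideal.absNorm v.asIdeal ≤ X}.ncard : ℝ) ≤
      (({v : HeightOneSpectrum (𝓞 F) | Dp p v}.ncard : ℝ)) /
      ({v : HeightOneSpectrum (𝓞 F) | Ideal.absNorm v.asIdeal ≤ X}.ncard : ℝ) := by
    intro X
    refine div_le_div_of_nonneg_right ?_ (Nat.cast_nonneg _)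
    exact_mod_cast Set.ncard_le_ncard (fun v hv => by
      by_contra hvp
      have h1 : sy p ζ v a = 1 := hv.2 0
      rw [hsy v hvp] at h1
      exact zero_ne_one h1) hfin
  have h2 := le_of_tendsto_of_tendsto' hC hsq hle
  have h3 : (0 : ℝ) < 1 / (p : ℝ) ^ 1 := by
    have : (0 : ℝ) < p := by exact_mod_cast hp.out.pos
    positivity
  linarith

end Pool.Agent.Q124.SP
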